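import Pool.Agent.W387.R.Stm

/-!
# The growth of the action on `N`
-/

set_option autoImplicit false

namespace Pool.Agent.W366.RA

open Pool.Agent.W387 Pool.Agent.W387.RA

/-! ### Affine maps -/

/-- the states of one slot -/
abbrev S : Type := ℤ × ℤ

/-- affine maps -/
structure Af where
  a : ℤ
  b : ℤ
  c : ℤ
  d : ℤ
  x : ℤ
  y : ℤ
deriving DecidableEq

def Af.mul (g h : Af) : Af := ⟨g.a * h.a + g.b * h.c, g.a * h.b + g.b * h.d, g.c * h.a + g.d * h.c,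
  g.c * h.b + g.d * h.d, g.a * h.x + g.b * h.y + g.x, g.c * h.x + g.d * h.y + g.y⟩

def Af.inv (g : Af) : Af := ⟨g.d, -g.b, -g.c, g.a, -(g.d * g.x - g.b * g.y),
  -(-g.c * g.x + g.a * g.y)⟩

def Af.one : Af := ⟨1, 0, 0, 1, 0, 0⟩

def Af.det (g : Af) : ℤ := g.a * g.d - g.b * g.c

def Af.act (g : Af) (s : S) : S := (g.a * s.1 + g.b * s.2 + g.x, g.c * s.1 + g.d * s.2 + g.y)

theorem act_mul (g h : Af) (s : S) : (g.mul h).act s = g.act (h.act s) := by
  unfold Af.act Af.mul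
  ext
  · simp only; ring
  · simp only; ring

theorem act_one (s : S) : Af.one.act s = s := by
  unfold Af.act Af.one
  ext
  · simp
  · simp

theorem act_inv1 {g : Af} (h : g.det = 1) (s : S) : g.inv.act (g.act s) = s := by
  unfold Af.det at h
  unfold Af.act Af.inv
  ext
  · simp only; linear_combination s.1 * h
  · simp only; linear_combination s.2 * h

theorem act_inv2 {g : Af} (h : g.det = 1) (s : S) : g.act (g.inv.act s) = s := by
  unfold Af.det at h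
  unfold Af.act Af.inv
  ext
  · simp only; linear_combination (s.1 - g.x) * h
  · simp only; linear_combination (s.2 - g.y) * h

/-- the permutation -/
def Af.perm (g : Af) : Equiv.Perm S :=
  if h : g.det = 1 then
    { toFun := g.act
      invFun := g.inv.act
      left_inv := act_inv1 h
      right_inv := act_inv2 h }
  else 1

theorem perm_apply {g : Af} (h : g.det = 1) (s : S) : g.perm s = g.act s := by
  unfold Af.perm
  rw [dif_pos h]
  rfl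

theorem perm_inv_apply {g : Af} (h : g.det = 1) (s : S) : g.perm⁻¹ s = g.inv.act s := by
  unfold Af.perm
  rw [dif_pos h]
  rfl

theorem perm_check {g1 g2 g3 g4 : Af} (h1 : g1.det = 1) (h2 : g2.det = 1) (h3 : g3.det = 1)
    (h4 : g4.det = 1) (h : ((g1.mul g2.inv).mul g3).mul g4.inv = Af.one) :
    g1.perm * g2.perm⁻¹ * g3.perm * g4.perm⁻¹ = 1 := by
  refine Equiv.ext fun s => ?_
  rw [Equiv.Perm.mul_apply, Equiv.Perm.mul_apply, Equiv.Perm.mul_apply, perm_inv_apply h4,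
    perm_apply h3, perm_inv_apply h2, perm_apply h1, ← act_mul, ← act_mul, ← act_mul, h, act_one]
  rfl

/-! ### Slotwise permutations and the shift -/

/-- slotwise action -/
def SW : (ℤ → Equiv.Perm S) →* Equiv.Perm (ℤ → S) where
  toFun := fun g =>
    { toFun := fun φ k => g k (φ k)
      invFun := fun φ k => (g k)⁻¹ (φ k)
      left_inv := fun φ => by funext k; simp
      right_inv := fun φ => by funext k; simp }
  map_one' := rfl
  map_mul' := fun _ _ => rfl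

theorem SW_apply (g : ℤ → Equiv.Perm S) (φ : ℤ → S) (k : ℤ) : SW g φ k = g k (φ k) := rfl

/-- the shift -/
def T : Equiv.Perm (ℤ → S) where
  toFun := fun φ k => φ (k - 1)
  invFun := fun φ k => φ (k + 1)
  left_inv := fun φ => by funext k; simp
  right_inv := fun φ => by funext k; simp

theorem T_apply (φ : ℤ → S) (k : ℤ) : T φ k = φ (k - 1) := rfl

theorem T_inv_apply (φ : ℤ → S) (k : ℤ) : T⁻¹ φ k = φ (k + 1) := rfl

theorem T_SW (g : ℤ → Equiv.Perm S) : T * SW g = SW (fun k => g (k - 1)) * T := by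
  refine Equiv.ext fun φ => funext fun k => ?_
  rw [Equiv.Perm.mul_apply, Equiv.Perm.mul_apply, T_apply, SW_apply, SW_apply, T_apply]

theorem Ti_SW (g : ℤ → Equiv.Perm S) : T⁻¹ * SW g = SW (fun k => g (k + 1)) * T⁻¹ := by
  refine Equiv.ext fun φ => funext fun k => ?_
  rw [Equiv.Perm.mul_apply, Equiv.Perm.mul_apply, T_inv_apply, SW_apply, SW_apply, T_inv_apply]

/-! ### The letters -/

def lin1 : Af := ⟨1, -4, 0, 1, 0, 0⟩
def lin2 : Af := ⟨1, 4, 4, 17, 0, 0⟩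
def lin3 : Af := ⟨1, 0, -4, 1, 0, 0⟩

def x1 : Equiv.Perm S := lin1.perm
def x2 : Equiv.Perm S := lin2.perm
def x3 : Equiv.Perm S := lin3.perm

def x3k (k : ℤ) : Equiv.Perm S := x2 ^ (2 * k) * x3 * x2 ^ (-(2 * k))

theorem x3k_succ (k : ℤ) : x3k (k + 1) = x2 * x2 * x3k k * x2⁻¹ * x2⁻¹ := by
  unfold x3k
  have e1 : (2 : ℤ) * (k + 1) = 1 + 1 + 2 * k := by ring
  have e2 : -(2 * (k + 1)) = -(2 * k) + -1 + -1 := by ring
  rw [e2, zpow_add, zpow_add, e1, zpow_add, zpow_add]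
  simp only [zpow_one, zpow_neg_one, mul_assoc]

theorem x3k_zero : x3k 0 = x3 := by
  unfold x3k
  simp

/-- the linear action of the colours -/
def Lc : Fin 4 → ℤ → Equiv.Perm S :=
  ![fun _ => 1, fun _ => x1, fun _ => x2 * x1, fun k => x3k k * x2 * x1]

/-- the action of the letters `z` up to the shift -/
def hz : Fin 4 → ℤ → Equiv.Perm S :=
  ![fun _ => x1 * x1, fun _ => x1, fun _ => x2⁻¹ * x1, fun k => x2⁻¹ * x2⁻¹ * (x3k k)⁻¹ * x2 * x1]

/-- the table of the affine maps of the letters in the slot `0` -/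
def gT : Lt → Af :=
  ![⟨1, 0, 0, 1, 0, 0⟩, ⟨1, 0, 0, 1, 0, 0⟩, ⟨-1, 0, 0, -1, 1, 0⟩, ⟨1, 0, 0, 1, 0, 0⟩,
    ⟨1, 0, 0, 1, 0, 0⟩, ⟨1, 0, 0, 1, 0, 0⟩, ⟨1, 0, 0, 1, 0, 1⟩, ⟨-1, 0, 0, -1, 0, 0⟩,
    ⟨1, -4, 0, 1, 0, 0⟩, ⟨1, -4, 0, 1, 0, 0⟩, ⟨-1, 4, 0, -1, -1, 0⟩, ⟨1, -4, 0, 1, 0, 0⟩,
    ⟨1, -4, 0, 1, 0, 0⟩, ⟨1, -4, 0, 1, 0, 0⟩, ⟨1, -4, 0, 1, 2, -1⟩, ⟨-1, 4, 0, -1, 0, 0⟩,
    ⟨1, 0, 4, 1, 0, 0⟩, ⟨1, 0, 4, 1, 0, 0⟩, ⟨-1, 0, -4, -1, 1, 2⟩, ⟨1, 0, 4, 1, 0, 0⟩,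
    ⟨1, 0, 4, 1, 0, 0⟩, ⟨1, 0, 4, 1, 0, 0⟩, ⟨1, 0, 4, 1, 0, -1⟩, ⟨-1, 0, -4, -1, 0, 0⟩,
    ⟨1, 0, 0, 1, 0, 0⟩, ⟨1, 0, 0, 1, 0, 0⟩, ⟨-1, 0, 0, -1, 1, 0⟩, ⟨1, 0, 0, 1, 0, 0⟩,
    ⟨1, 0, 0, 1, 0, 0⟩, ⟨1, 0, 0, 1, 0, 0⟩, ⟨1, 0, 0, 1, 0, -1⟩, ⟨-1, 0, 0, -1, 0, 0⟩,
    ⟨1, 0, 0, 1, 0, 0⟩, ⟨1, 0, 0, 1, 0, 0⟩, ⟨1, 0, 0, 1, 0, 0⟩, ⟨1, 0, 0, 1, 0, 0⟩]

/-- the slotwise action of the letters of the four colours -/
def sl (e : Lt) (k : ℤ) : Equiv.Perm S := if k = 0 then (gT e).perm else Lc (col e) k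

/-- the images of the letters -/
def ps (e : Lt) : Equiv.Perm (ℤ → S) :=
  if e.val < 32 then SW (sl e) else T⁻¹ * SW (hz (col e))

/-- the check of a square of the four colours -/
def chk (t : Lt × Lt × Lt × Lt) : Bool :=
  (t.1.val < 32 && t.2.1.val < 32 && t.2.2.1.val < 32 && t.2.2.2.val < 32) &&
  ((gT t.1).det == 1 && (gT t.2.1).det == 1 && (gT t.2.2.1).det == 1 && (gT t.2.2.2).det == 1) &&
  (((((gT t.1).mul (gT t.2.1).inv).mul (gT t.2.2.1)).mul (gT t.2.2.2).inv) == Af.one) &&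
  ((col t.1 == col t.2.1 && col t.2.2.1 == col t.2.2.2) ||
    (col t.2.1 == col t.2.2.1 && col t.1 == col t.2.2.2))

theorem sqs_chk : ∀ t ∈ sqs, chk t = true ∨ t = (13, 3, 33, 32) ∨ t = (13, 32, 33, 3) ∨
    t = (19, 13, 34, 33) ∨ t = (19, 33, 34, 13) ∨ t = (29, 19, 35, 34) ∨ t = (29, 34, 35, 19) := by
  decide +kernel

theorem rel_chk {t : Lt × Lt × Lt × Lt} (h : chk t = true) :
    ps t.1 * (ps t.2.1)⁻¹ * ps t.2.2.1 * (ps t.2.2.2)⁻¹ = 1 := by
  unfold chk at h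
  simp only [Bool.and_eq_true, decide_eq_true_eq, beq_iff_eq, Bool.or_eq_true] at h
  obtain ⟨⟨⟨⟨⟨⟨h1, h2⟩, h3⟩, h4⟩, ⟨⟨d1, d2⟩, d3⟩, d4⟩, hm⟩, hc⟩ := h
  unfold ps
  rw [if_pos h1, if_pos h2, if_pos h3, if_pos h4, ← map_inv, ← map_inv, ← map_mul, ← map_mul,
    ← map_mul]
  have e : sl t.1 * (sl t.2.1)⁻¹ * sl t.2.2.1 * (sl t.2.2.2)⁻¹ = 1 := by
    funext k
    show sl t.1 k * (sl t.2.1 k)⁻¹ * sl t.2.2.1 k * (sl t.2.2.2 k)⁻¹ = 1
    unfold sl
    by_cases hk : k = 0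
    · rw [if_pos hk, if_pos hk, if_pos hk, if_pos hk]
      exact perm_check d1 d2 d3 d4 hm
    · rw [if_neg hk, if_neg hk, if_neg hk, if_neg hk]
      rcases hc with ⟨c1, c2⟩ | ⟨c1, c2⟩
      · rw [c1, c2]; group
      · rw [c1, c2]; group
  rw [e, map_one]

theorem lin_eq : (⟨1, 0, 4, 1, 0, 0⟩ : Af).perm = x2 * x1 := by
  refine Equiv.ext fun s => ?_
  rw [Equiv.Perm.mul_apply]
  unfold x1 x2
  rw [perm_apply (by decide), perm_apply (by decide), perm_apply (by decide), ← act_mul]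
  rfl

theorem lin_eq3 : (⟨1, 0, 0, 1, 0, 0⟩ : Af).perm = x3 * x2 * x1 := by
  refine Equiv.ext fun s => ?_
  rw [Equiv.Perm.mul_apply, Equiv.Perm.mul_apply]
  unfold x1 x2 x3
  rw [perm_apply (by decide), perm_apply (by decide), perm_apply (by decide),
    perm_apply (by decide), ← act_mul, ← act_mul]
  rfl

theorem lin_one : (⟨1, 0, 0, 1, 0, 0⟩ : Af).perm = 1 := by
  refine Equiv.ext fun s => ?_
  rw [perm_apply (by decide)]
  exact act_one s

theorem ps_3 : ps 3 = 1 := by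
  unfold ps
  rw [if_pos (by decide)]
  have e : sl 3 = 1 := by
    funext k
    unfold sl
    split_ifs
    · exact lin_one
    · rfl
  rw [e, map_one]

theorem ps_13 : ps 13 = SW (fun _ => x1) := by
  unfold ps
  rw [if_pos (by decide)]
  congr 1
  funext k
  unfold sl
  split_ifs
  · rfl
  · rfl

theorem ps_19 : ps 19 = SW (fun _ => x2 * x1) := by
  unfold ps
  rw [if_pos (by decide)]
  congr 1
  funext k
  unfold sl
  split_ifs
  · exact lin_eq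
  · rfl

theorem ps_29 : ps 29 = SW (fun k => x3k k * x2 * x1) := by
  unfold ps
  rw [if_pos (by decide)]
  congr 1
  funext k
  unfold sl
  split_ifs with h
  · rw [h, x3k_zero]
    exact lin_eq3
  · rfl

theorem ps_32 : ps 32 = T⁻¹ * SW (fun _ => x1 * x1) := rfl
theorem ps_33 : ps 33 = T⁻¹ * SW (fun _ => x1) := rfl
theorem ps_34 : ps 34 = T⁻¹ * SW (fun _ => x2⁻¹ * x1) := rfl
theorem ps_35 : ps 35 = T⁻¹ * SW (fun k => x2⁻¹ * x2⁻¹ * (x3k k)⁻¹ * x2 * x1) := rfl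

/-- squares of the first kind -/
theorem z_sq1 (f f' h h' : ℤ → Equiv.Perm S)
    (e : ∀ k, f k * (f' k)⁻¹ * h (k + 1) * (h' (k + 1))⁻¹ = 1) :
    SW f * (SW f')⁻¹ * (T⁻¹ * SW h) * (T⁻¹ * SW h')⁻¹ = 1 := by
  have e1 : (T⁻¹ * SW h) * (T⁻¹ * SW h')⁻¹ =
      SW (fun k => h (k + 1)) * (SW (fun k => h' (k + 1)))⁻¹ := by
    rw [Ti_SW, Ti_SW, mul_inv_rev, inv_inv]
    group
  rw [mul_assoc _ (T⁻¹ * SW h), e1, ← map_inv, ← map_inv, ← map_mul, ← map_mul, ← map_mul]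
  have e2 : f * f'⁻¹ * ((fun k => h (k + 1)) * (fun k => h' (k + 1))⁻¹) = 1 := by
    funext k
    show f k * (f' k)⁻¹ * (h (k + 1) * (h' (k + 1))⁻¹) = 1
    rw [← mul_assoc]
    exact e k
  rw [e2, map_one]

/-- squares of the second kind -/
theorem z_sq2 (f f' h h' : ℤ → Equiv.Perm S)
    (e : ∀ k, f k * (h' k)⁻¹ * h k * (f' k)⁻¹ = 1) :
    SW f * (T⁻¹ * SW h')⁻¹ * (T⁻¹ * SW h) * (SW f')⁻¹ = 1 := by
  have e1 : SW f * (T⁻¹ * SW h')⁻¹ * (T⁻¹ * SW h) * (SW f')⁻¹ =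
      SW f * (SW h')⁻¹ * SW h * (SW f')⁻¹ := by group
  rw [e1, ← map_inv, ← map_inv, ← map_mul, ← map_mul, ← map_mul]
  have e2 : f * h'⁻¹ * h * f'⁻¹ = 1 := by
    funext k
    exact e k
  rw [e2, map_one]

theorem rel_z : (ps 13 * (ps 3)⁻¹ * ps 33 * (ps 32)⁻¹ = 1 ∧
    ps 13 * (ps 32)⁻¹ * ps 33 * (ps 3)⁻¹ = 1) ∧ (ps 19 * (ps 13)⁻¹ * ps 34 * (ps 33)⁻¹ = 1 ∧
    ps 19 * (ps 33)⁻¹ * ps 34 * (ps 13)⁻¹ = 1) ∧ (ps 29 * (ps 19)⁻¹ * ps 35 * (ps 34)⁻¹ = 1 ∧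
    ps 29 * (ps 34)⁻¹ * ps 35 * (ps 19)⁻¹ = 1) := by
  have h3 : ps 3 = SW (fun _ => 1) := ps_3
  rw [h3, ps_13, ps_19, ps_29, ps_32, ps_33, ps_34, ps_35]
  refine ⟨⟨?_, ?_⟩, ⟨?_, ?_⟩, ?_, ?_⟩
  · exact z_sq1 _ _ _ _ fun k => by group
  · exact z_sq2 _ _ _ _ fun k => by group
  · exact z_sq1 _ _ _ _ fun k => by group
  · exact z_sq2 _ _ _ _ fun k => by group
  · refine z_sq1 _ _ _ _ fun k => ?_
    rw [x3k_succ]
    group
  · exact z_sq2 _ _ _ _ fun k => by group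

theorem rel_all : ∀ r ∈ (↑relF : Set (FreeGroup Lt)), FreeGroup.lift ps r = 1 := by
  intro r hr
  unfold relF at hr
  rw [Finset.coe_insert, Set.mem_insert_iff, Finset.mem_coe, List.mem_toFinset, List.mem_map] at hr
  rcases hr with rfl | ⟨t, ht, rfl⟩
  · rw [FreeGroup.lift_apply_of]
    exact ps_3
  · unfold sqRel
    rw [map_mul, map_mul, map_mul, map_inv, map_inv, FreeGroup.lift_apply_of,
      FreeGroup.lift_apply_of, FreeGroup.lift_apply_of, FreeGroup.lift_apply_of]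
    rcases sqs_chk t ht with h | rfl | rfl | rfl | rfl | rfl | rfl
    · exact rel_chk h
    · exact rel_z.1.1
    · exact rel_z.1.2
    · exact rel_z.2.1.1
    · exact rel_z.2.1.2
    · exact rel_z.2.2.1
    · exact rel_z.2.2.2

/-- the representation -/
def Psi : G →* Equiv.Perm (ℤ → S) := PresentedGroup.toGroup rel_all

theorem Psi_gl (e : Lt) : Psi (gl e) = ps e := PresentedGroup.toGroup.of rel_all

/-! ### The function -/

/-- the form of the elements of `N` -/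
def Fm (P : Equiv.Perm (ℤ → S)) : Prop := ∃ s : ℤ, (s = 1 ∨ s = -1) ∧ ∃ D : S,
  ∀ (φ : ℤ → S) (k : ℤ), P φ k = if k = 0 then (s * (φ 0).1 + D.1, s * (φ 0).2 + D.2) else φ k

theorem Fm_one : Fm 1 := by
  refine ⟨1, Or.inl rfl, 0, fun φ k => ?_⟩
  split_ifs with h
  · subst h
    simp
  · rfl

theorem Fm_mul {P Q : Equiv.Perm (ℤ → S)} (hP : Fm P) (hQ : Fm Q) : Fm (P * Q) := by
  obtain ⟨s, hs, D, h1⟩ := hP
  obtain ⟨s', hs', D', h2⟩ := hQ
  refine ⟨s * s', ?_, (s * D'.1 + D.1, s * D'.2 + D.2), fun φ k => ?_⟩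
  · rcases hs with rfl | rfl <;> rcases hs' with rfl | rfl <;> norm_num
  · rw [Equiv.Perm.mul_apply, h1]
    by_cases h : k = 0
    · rw [if_pos h, if_pos h, h2, if_pos rfl]
      ext
      · simp only; ring
      · simp only; ring
    · rw [if_neg h, if_neg h, h2, if_neg h]

theorem Fm_inv {P : Equiv.Perm (ℤ → S)} (hP : Fm P) : Fm P⁻¹ := by
  obtain ⟨s, hs, D, h1⟩ := hP
  have hss : s * s = 1 := by rcases hs with rfl | rfl <;> norm_num
  refine ⟨s, hs, (-s * D.1, -s * D.2), fun φ => ?_⟩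
  have h : P⁻¹ φ = fun k => if k = 0 then (s * (φ 0).1 + -s * D.1, s * (φ 0).2 + -s * D.2)
      else φ k := by
    rw [Equiv.Perm.inv_eq_iff_eq]
    funext k
    rw [h1]
    by_cases hk : k = 0
    · rw [if_pos hk, if_pos rfl, hk]
      ext
      · simp only; linear_combination (-(φ 0).1 + D.1) * hss
      · simp only; linear_combination (-(φ 0).2 + D.2) * hss
    · rw [if_neg hk, if_neg hk]
  intro k
  rw [h]

theorem perm_pm {s : ℤ} {x y : ℤ} (hs : s = 1 ∨ s = -1) (v : S) :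
    (⟨s, 0, 0, s, x, y⟩ : Af).perm v = (s * v.1 + x, s * v.2 + y) := by
  rw [perm_apply (by unfold Af.det; rcases hs with rfl | rfl <;> norm_num)]
  unfold Af.act
  simp

theorem Fm_p {e : Lt} (h8 : e.val < 8) : Fm (Psi (gl e)) := by
  rw [Psi_gl]
  unfold ps
  rw [if_pos (by omega)]
  have h : ∃ (s x y : ℤ), (s = 1 ∨ s = -1) ∧ gT e = ⟨s, 0, 0, s, x, y⟩ := by
    have : ∀ e : Lt, e.val < 8 → ((gT e).a = 1 ∨ (gT e).a = -1) ∧ gT e = ⟨(gT e).a, 0, 0, (gT e).a,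
      (gT e).x, (gT e).y⟩ := by decide +kernel
    exact ⟨_, _, _, (this e h8).1, (this e h8).2⟩
  obtain ⟨s, x, y, hs, hg⟩ := h
  have hc : col e = 0 := by
    have : ∀ e : Lt, e.val < 8 → col e = 0 := by decide +kernel
    exact this e h8
  refine ⟨s, hs, (x, y), fun φ k => ?_⟩
  rw [SW_apply]
  unfold sl
  split_ifs with hk
  · subst hk
    rw [hg, perm_pm hs]
  · rw [hc]
    rfl

theorem mem_NsF {n : FreeGroup Lt} (h : n ∈ NsF) : ∃ e : Lt, e.val < 8 ∧ n = FreeGroup.of e := by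
  unfold NsF at h
  simp only [Finset.mem_insert, Finset.mem_singleton] at h
  rcases h with rfl | rfl | rfl | rfl | rfl | rfl | rfl
  · exact ⟨0, by decide, rfl⟩
  · exact ⟨1, by decide, rfl⟩
  · exact ⟨2, by decide, rfl⟩
  · exact ⟨4, by decide, rfl⟩
  · exact ⟨5, by decide, rfl⟩
  · exact ⟨6, by decide, rfl⟩
  · exact ⟨7, by decide, rfl⟩

theorem Fm_N {g : G} (h : g ∈ N) : Fm (Psi g) := by
  unfold N subN at h
  induction h using Subgroup.closure_induction with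
  | mem x hx =>
    obtain ⟨n, hn, rfl⟩ := hx
    obtain ⟨e, he, rfl⟩ := mem_NsF hn
    exact Fm_p he
  | one => rw [map_one]; exact Fm_one
  | mul x y _ _ hx hy => rw [map_mul]; exact Fm_mul hx hy
  | inv x _ hx => rw [map_inv]; exact Fm_inv hx

/-- the zero state -/
def z0 : ℤ → S := fun _ => (0, 0)

open Classical in
/-- the function on the group -/
noncomputable def ff (g : G) : ℝ :=
  if g ∈ N then (((Psi g⁻¹ z0 0).1 + (Psi g⁻¹ z0 0).2 : ℤ) : ℝ) else 0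

theorem ff_one : ff 1 = 0 := by
  unfold ff
  rw [if_pos (one_mem _), inv_one, map_one]
  show (((0 : ℤ) + (0 : ℤ) : ℤ) : ℝ) = 0
  norm_num

theorem p_small {e : Lt} (h8 : e.val < 8) :
    |(Psi (gl e) z0 0).1 + (Psi (gl e) z0 0).2| ≤ 1 := by
  rw [Psi_gl]
  unfold ps
  rw [if_pos (by omega), SW_apply]
  unfold sl
  rw [if_pos rfl]
  have : ∀ e : Lt, e.val < 8 → (gT e).det = 1 ∧ |((gT e).act (0, 0)).1 + ((gT e).act (0, 0)).2| ≤ 1 := by
    decide +kernel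
  rw [perm_apply (this e h8).1]
  exact (this e h8).2

theorem ff_diff {n : FreeGroup Lt} (hn : n ∈ NsF) (x : G) :
    |ff x - ff ((pg relF n)⁻¹ * x)| ≤ 1 := by
  have hnN : pg relF n ∈ N := Subgroup.subset_closure ⟨n, hn, rfl⟩
  obtain ⟨e, he, rfl⟩ := mem_NsF hn
  unfold ff
  by_cases hx : x ∈ N
  · have hx' : (pg relF (FreeGroup.of e))⁻¹ * x ∈ N := mul_mem (inv_mem hnN) hx
    rw [if_pos hx, if_pos hx', mul_inv_rev, inv_inv, map_mul, Equiv.Perm.mul_apply]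
    obtain ⟨s, hs, D, h⟩ := Fm_N (inv_mem hx)
    rw [h, h, if_pos rfl, if_pos rfl]
    have hp := p_small he
    unfold gl at hp
    have e1 : ((z0 0).1 : ℤ) = 0 := rfl
    have e2 : ((z0 0).2 : ℤ) = 0 := rfl
    rw [e1, e2]
    have hp' : |((((Psi (pg relF (FreeGroup.of e)) z0 0).1 +
      (Psi (pg relF (FreeGroup.of e)) z0 0).2 : ℤ)) : ℝ)| ≤ 1 := by exact_mod_cast hp
    have hs' : |(s : ℝ)| = 1 := by rcases hs with rfl | rfl <;> norm_num
    have e3 : (((s * 0 + D.1 + (s * 0 + D.2) : ℤ)) : ℝ) -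
        ((s * (Psi (pg relF (FreeGroup.of e)) z0 0).1 + D.1 +
          (s * (Psi (pg relF (FreeGroup.of e)) z0 0).2 + D.2) : ℤ) : ℝ) =
        -((s : ℝ) * ((((Psi (pg relF (FreeGroup.of e)) z0 0).1 +
      (Psi (pg relF (FreeGroup.of e)) z0 0).2 : ℤ)) : ℝ)) := by
      push_cast
      ring
    rw [e3, abs_neg, abs_mul, hs', one_mul]
    exact hp'
  · have hx' : (pg relF (FreeGroup.of e))⁻¹ * x ∉ N := by
      intro h
      apply hx
      have := mul_mem hnN h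
      rwa [mul_inv_cancel_left] at this
    rw [if_neg hx, if_neg hx']
    simp

/-! ### The words -/

def tF : FreeGroup Lt := FreeGroup.of 13 * (FreeGroup.of 33)⁻¹
def wF : FreeGroup Lt := (FreeGroup.of 13)⁻¹ ^ 2 * FreeGroup.of 19 * (FreeGroup.of 29)⁻¹
def fF (n : ℕ) : FreeGroup Lt := (tF * wF) ^ n * tF⁻¹ ^ n
def gF (n : ℕ) : FreeGroup Lt := fF n * FreeGroup.of 2 * (fF n)⁻¹

theorem norm_pow_le (x : FreeGroup Lt) (n : ℕ) : (x ^ n).norm ≤ n * x.norm := by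
  induction n with
  | zero => simp
  | succ n ih =>
    rw [pow_succ]
    have := FreeGroup.norm_mul_le (x ^ n) x
    rw [add_mul, one_mul]
    omega

theorem norm_tF : tF.norm ≤ 2 := by
  unfold tF
  have h := FreeGroup.norm_mul_le (FreeGroup.of (13 : Lt)) (FreeGroup.of 33)⁻¹
  rw [FreeGroup.norm_inv_eq, FreeGroup.norm_of, FreeGroup.norm_of] at h
  exact h

theorem norm_wF : wF.norm ≤ 4 := by
  unfold wF
  have h1 := FreeGroup.norm_mul_le ((FreeGroup.of (13 : Lt))⁻¹ ^ 2 * FreeGroup.of 19)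
    (FreeGroup.of 29)⁻¹
  have h2 := FreeGroup.norm_mul_le ((FreeGroup.of (13 : Lt))⁻¹ ^ 2) (FreeGroup.of 19)
  have h3 := norm_pow_le (FreeGroup.of (13 : Lt))⁻¹ 2
  rw [FreeGroup.norm_inv_eq, FreeGroup.norm_of] at h3
  rw [FreeGroup.norm_inv_eq, FreeGroup.norm_of] at h1
  rw [FreeGroup.norm_of] at h2
  omega

theorem norm_gF (n : ℕ) : (gF n).norm ≤ 16 * n + 1 := by
  have h1 := norm_tF
  have h2 := norm_wF
  have h3 := FreeGroup.norm_mul_le tF wF
  have h4 := norm_pow_le (tF * wF) n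
  have h5 := norm_pow_le tF⁻¹ n
  rw [FreeGroup.norm_inv_eq] at h5
  have h6 := FreeGroup.norm_mul_le ((tF * wF) ^ n) (tF⁻¹ ^ n)
  have h7 : (fF n).norm ≤ 8 * n := by
    unfold fF
    have k1 : n * (tF * wF).norm ≤ n * 6 := Nat.mul_le_mul_left _ (by omega)
    have k2 : n * tF.norm ≤ n * 2 := Nat.mul_le_mul_left _ h1
    omega
  unfold gF
  have h8 := FreeGroup.norm_mul_le (fF n * FreeGroup.of 2) (fF n)⁻¹
  have h9 := FreeGroup.norm_mul_le (fF n) (FreeGroup.of (2 : Lt))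
  rw [FreeGroup.norm_inv_eq] at h8
  rw [FreeGroup.norm_of] at h9
  omega

theorem gl_Y {e : Lt} (h : isY e = true) : gl e ∈ C1 := Subgroup.subset_closure ⟨e, h, rfl⟩

theorem tG_mem : pg relF tF ∈ C1 := by
  unfold tF
  rw [map_mul, map_inv]
  exact mul_mem (gl_Y (by decide)) (inv_mem (gl_Y (by decide)))

theorem wG_mem : pg relF wF ∈ C1 := by
  unfold wF
  rw [map_mul, map_mul, map_pow, map_inv, map_inv]
  exact mul_mem (mul_mem (pow_mem (inv_mem (gl_Y (by decide))) 2) (gl_Y (by decide)))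
    (inv_mem (gl_Y (by decide)))

theorem norm_F1 (h1 : StmF1b) {f : G} (hf : f ∈ F1) : ∀ n : G, n ∈ N ↔ f * n * f⁻¹ ∈ N := by
  unfold F1 at hf
  induction hf using Subgroup.closure_induction with
  | mem x hx =>
    obtain ⟨c, rfl⟩ := hx
    exact fun n => h1 c n
  | one => intro n; rw [one_mul, inv_one, mul_one]
  | mul x y _ _ hx hy =>
    intro n
    rw [hy n, hx (y * n * y⁻¹)]
    have e : x * (y * n * y⁻¹) * x⁻¹ = x * y * n * (x * y)⁻¹ := by group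
    rw [e]
  | inv x _ hx =>
    intro n
    have h := hx (x⁻¹ * n * x)
    have e : x * (x⁻¹ * n * x) * x⁻¹ = n := by group
    rw [e] at h
    rw [inv_inv]
    exact h.symm

theorem fG_mem (h2 : StmF2) (n : ℕ) : pg relF (fF n) ∈ F1 := by
  obtain ⟨h, hh, hC⟩ := h2
  apply hC
  · unfold fF
    rw [map_mul, map_pow, map_pow, map_mul, map_inv]
    exact mul_mem (pow_mem (mul_mem tG_mem wG_mem) n) (pow_mem (inv_mem tG_mem) n)
  · have hw : h (pg relF wF) = 1 := by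
      unfold wF
      simp only [map_mul, map_pow, map_inv]
      have k1 : h (pg relF (FreeGroup.of 13)) = 1 := by
        have := hh 13
        rw [if_pos (by decide)] at this
        exact this
      have k2 : h (pg relF (FreeGroup.of 19)) = 1 := by
        have := hh 19
        rw [if_pos (by decide)] at this
        exact this
      have k3 : h (pg relF (FreeGroup.of 29)) = 1 := by
        have := hh 29
        rw [if_pos (by decide)] at this
        exact this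
      rw [k1, k2, k3]
      simp
    unfold fF
    rw [map_mul, map_pow, map_pow, map_mul, map_inv, map_mul, map_pow, map_pow, map_mul, map_inv,
      hw, mul_one, ← mul_pow, mul_inv_cancel, one_pow]

theorem gG_mem (h1 : StmF1b) (h2 : StmF2) (n : ℕ) : pg relF (gF n) ∈ N := by
  unfold gF
  rw [map_mul, map_mul, map_inv]
  refine (norm_F1 h1 (fG_mem h2 n) _).1 ?_
  refine Subgroup.subset_closure ⟨FreeGroup.of 2, ?_, rfl⟩
  unfold NsF
  simp

/-! ### The growth -/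

/-- the slotwise action of `w` -/
def om (k : ℤ) : Equiv.Perm S := x1⁻¹ * x1⁻¹ * (x3k k)⁻¹

theorem Psi_t : Psi (pg relF tF) = T := by
  unfold tF
  rw [map_mul, map_inv, map_mul, map_inv]
  change Psi (gl 13) * (Psi (gl 33))⁻¹ = T
  rw [Psi_gl, Psi_gl, ps_13, ps_33]
  group

theorem Psi_w : Psi (pg relF wF) = SW om := by
  unfold wF
  simp only [map_mul, map_pow, map_inv]
  change (Psi (gl 13))⁻¹ ^ 2 * Psi (gl 19) * (Psi (gl 29))⁻¹ = SW om
  rw [Psi_gl, Psi_gl, Psi_gl, ps_13, ps_19, ps_29, ← map_inv, ← map_inv, ← map_pow, ← map_mul,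
    ← map_mul]
  congr 1
  funext k
  show (x1⁻¹) ^ 2 * (x2 * x1) * (x3k k * x2 * x1)⁻¹ = om k
  unfold om
  group

/-- the slotwise action of `(t w) ^ n t ^ (- n)` -/
def Om : ℕ → ℤ → Equiv.Perm S
  | 0 => fun _ => 1
  | n + 1 => fun k => Om n k * om (k - (n + 1 : ℕ))

theorem T_pow_SW (g : ℤ → Equiv.Perm S) (n : ℕ) :
    T ^ n * SW g = SW (fun k => g (k - n)) * T ^ n := by
  induction n generalizing g with
  | zero => simp
  | succ n ih =>
    rw [pow_succ, mul_assoc, T_SW, ← mul_assoc, ih, mul_assoc]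
    congr 1
    congr 1
    funext k
    congr 1
    push_cast
    ring

theorem TOm (n : ℕ) : (T * SW om) ^ n = SW (Om n) * T ^ n := by
  induction n with
  | zero =>
    rw [pow_zero, pow_zero, mul_one]
    exact (map_one SW).symm
  | succ n ih =>
    rw [pow_succ, ih, mul_assoc, ← mul_assoc (T ^ n), ← pow_succ, T_pow_SW, ← mul_assoc, ← map_mul]
    rfl

theorem Psi_f (n : ℕ) : Psi (pg relF (fF n)) = SW (Om n) := by
  unfold fF
  rw [map_mul, map_pow, map_pow, map_mul, map_inv, map_mul, map_pow, map_pow, map_mul, map_inv,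
    Psi_t, Psi_w, TOm, mul_assoc, inv_pow, mul_inv_cancel, mul_one]

/-- the powers of `x2 ^ 2` -/
theorem x2_pow (i : ℕ) : ∃ a b : ℤ, (1 ≤ a ∧ 0 ≤ b ∧ (2 : ℤ) ^ i ≤ a ∧ (1 ≤ i → 4 * a ≤ b ∧ b ≤ 5 * a)) ∧
    a * (a + 4 * b) - b * b = 1 ∧
    ∀ v : S, (x2 * x2) ^ i • v = (a * v.1 + b * v.2, b * v.1 + (a + 4 * b) * v.2) := by
  induction i with
  | zero =>
    refine ⟨1, 0, ⟨le_rfl, le_rfl, by norm_num, fun h => absurd h (by norm_num)⟩, by norm_num,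
      fun v => ?_⟩
    rw [pow_zero, one_smul]
    ext <;> simp
  | succ i ih =>
    obtain ⟨a, b, ⟨h1, h2, h3, h4⟩, hd, hv⟩ := ih
    refine ⟨17 * a + 72 * b, 72 * a + 305 * b, ⟨by linarith, by linarith, ?_, fun _ => ⟨by linarith,
      by linarith⟩⟩, ?_, fun v => ?_⟩
    · rw [pow_succ]
      linarith
    · linear_combination hd
    · rw [pow_succ, mul_smul, hv]
      have e : (x2 * x2) • v = (17 * v.1 + 72 * v.2, 72 * v.1 + 305 * v.2) := by
        show x2 (x2 v) = _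
        unfold x2
        rw [perm_apply (by decide), perm_apply (by decide)]
        unfold Af.act lin2
        ext
        · simp only; ring
        · simp only; ring
      rw [e]
      ext
      · simp only; ring
      · simp only; ring

theorem x1_inv_apply (v : S) : x1⁻¹ v = (v.1 + 4 * v.2, v.2) := by
  unfold x1
  rw [perm_inv_apply (by decide)]
  unfold Af.act Af.inv lin1
  ext
  · simp
  · simp

theorem x3_inv_apply (v : S) : x3⁻¹ v = (v.1, 4 * v.1 + v.2) := by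
  unfold x3
  rw [perm_inv_apply (by decide)]
  unfold Af.act Af.inv lin3
  ext
  · simp
  · simp

theorem om_neg (i : ℕ) : om (-(i : ℤ)) = x1⁻¹ * x1⁻¹ * (((x2 * x2) ^ i)⁻¹ * x3⁻¹ * (x2 * x2) ^ i) := by
  unfold om x3k
  have e1 : x2 ^ (2 * -(i : ℤ)) = ((x2 * x2) ^ i)⁻¹ := by
    rw [mul_neg, zpow_neg, zpow_mul]
    congr 1
  have e2 : x2 ^ (-(2 * -(i : ℤ))) = (x2 * x2) ^ i := by
    rw [zpow_neg, e1, inv_inv]
  rw [e1, e2, mul_inv_rev, mul_inv_rev, inv_inv]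
  simp only [mul_assoc]

theorem om_grow {i : ℕ} (hi : 1 ≤ i) {v : S} (h1 : 0 ≤ v.1) (h2 : 0 ≤ v.2) :
    0 ≤ (om (-(i : ℤ)) v).1 ∧ 0 ≤ (om (-(i : ℤ)) v).2 ∧
      2 ^ i * (v.1 + v.2) ≤ (om (-(i : ℤ)) v).1 + (om (-(i : ℤ)) v).2 := by
  obtain ⟨a, b, ⟨ha, hb, ha2, hab⟩, hd, hv⟩ := x2_pow i
  obtain ⟨hab1, hab2⟩ := hab hi
  set m : ℤ := a * v.1 + b * v.2 with hm
  have e : om (-(i : ℤ)) v = (v.1 + 8 * v.2 + 4 * m * (8 * a - b), v.2 + 4 * a * m) := by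
    rw [om_neg]
    simp only [Equiv.Perm.mul_apply]
    have k1 : ((x2 * x2) ^ i : Equiv.Perm S) v = (m, b * v.1 + (a + 4 * b) * v.2) := hv v
    rw [k1, x3_inv_apply]
    have k2 : (((x2 * x2) ^ i)⁻¹ : Equiv.Perm S) (m, 4 * m + (b * v.1 + (a + 4 * b) * v.2)) =
        (v.1 - 4 * b * m, v.2 + 4 * a * m) := by
      rw [Equiv.Perm.inv_eq_iff_eq]
      have := hv (v.1 - 4 * b * m, v.2 + 4 * a * m)
      change ((x2 * x2) ^ i : Equiv.Perm S) (v.1 - 4 * b * m, v.2 + 4 * a * m) = _ at this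
      rw [this]
      ext
      · simp only; rw [hm]; ring
      · simp only; linear_combination (-4 * m) * hd
    rw [k2, x1_inv_apply, x1_inv_apply]
    ext
    · simp only; ring
    · simp only
  have hm0 : 0 ≤ m := by positivity
  have hm1 : v.1 + v.2 ≤ m := by
    rw [hm]
    nlinarith
  rw [e]
  simp only
  have hmab : 0 ≤ m * (8 * a - b) := mul_nonneg hm0 (by linarith)
  have ham : 0 ≤ a * m := mul_nonneg (by linarith) hm0
  refine ⟨by nlinarith, by nlinarith, ?_⟩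
  have k1 : a * (v.1 + v.2) ≤ a * m := mul_le_mul_of_nonneg_left hm1 (by linarith)
  have k2 : 2 ^ i * (v.1 + v.2) ≤ a * (v.1 + v.2) := mul_le_mul_of_nonneg_right ha2 (by linarith)
  nlinarith

/-- exponents -/
def ee : ℕ → ℕ
  | 0 => 0
  | n + 1 => ee n + (n + 1)

theorem ee_eq (n : ℕ) : 2 * ee n = n * (n + 1) := by
  induction n with
  | zero => rfl
  | succ n ih =>
    rw [ee, mul_add, ih]
    ring

theorem Om_grow (n : ℕ) : ∀ v : S, 0 ≤ v.1 → 0 ≤ v.2 → 0 ≤ (Om n 0 v).1 ∧ 0 ≤ (Om n 0 v).2 ∧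
    2 ^ ee n * (v.1 + v.2) ≤ (Om n 0 v).1 + (Om n 0 v).2 := by
  induction n with
  | zero =>
    intro v h1 h2
    refine ⟨h1, h2, ?_⟩
    show 2 ^ 0 * (v.1 + v.2) ≤ v.1 + v.2
    rw [pow_zero, one_mul]
  | succ n ih =>
    intro v h1 h2
    have e : Om (n + 1) 0 v = Om n 0 (om (-((n + 1 : ℕ) : ℤ)) v) := by
      show Om n 0 (om (0 - ((n + 1 : ℕ) : ℤ)) v) = _
      rw [zero_sub]
    obtain ⟨k1, k2, k3⟩ := om_grow (i := n + 1) (by omega) h1 h2
    obtain ⟨m1, m2, m3⟩ := ih _ k1 k2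
    rw [e]
    refine ⟨m1, m2, le_trans ?_ m3⟩
    rw [ee, pow_add, mul_assoc]
    exact mul_le_mul_of_nonneg_left k3 (by positivity)

theorem x_lin {g : Af} (hg : g.det = 1) (h1 : g.x = 0) (h2 : g.y = 0) : g.perm (0, 0) = (0, 0) := by
  rw [perm_apply hg]
  unfold Af.act
  rw [h1, h2]
  simp

theorem om_zero (k : ℤ) : om k (0, 0) = (0, 0) := by
  have e1 : x1⁻¹ ((0, 0) : S) = (0, 0) := by
    rw [x1_inv_apply]
    simp
  have e2 : x2 ((0, 0) : S) = (0, 0) := x_lin (by decide) rfl rfl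
  have e3 : x3 ((0, 0) : S) = (0, 0) := x_lin (by decide) rfl rfl
  have e4 : ∀ m : ℤ, (x2 ^ m) ((0, 0) : S) = (0, 0) := fun m =>
    Equiv.Perm.zpow_apply_eq_self_of_apply_eq_self e2 m
  have e5 : x3k k ((0, 0) : S) = (0, 0) := by
    unfold x3k
    rw [Equiv.Perm.mul_apply, Equiv.Perm.mul_apply, e4, e3, e4]
  unfold om
  rw [Equiv.Perm.mul_apply, Equiv.Perm.mul_apply]
  have e6 : (x3k k)⁻¹ ((0, 0) : S) = (0, 0) := by
    rw [Equiv.Perm.inv_eq_iff_eq, e5]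
  rw [e6, e1, e1]

theorem Om_zero (n : ℕ) (k : ℤ) : Om n k (0, 0) = (0, 0) := by
  induction n with
  | zero => rfl
  | succ n ih =>
    show Om n k (om (k - (n + 1 : ℕ)) (0, 0)) = _
    rw [om_zero, ih]

theorem Psi_g (n : ℕ) : Psi (pg relF (gF n)) z0 0 = Om n 0 (1, 0) := by
  unfold gF
  rw [map_mul, map_mul, map_inv, map_mul, map_mul, map_inv, Psi_f]
  change (SW (Om n) * Psi (gl 2) * (SW (Om n))⁻¹) z0 0 = _
  rw [Equiv.Perm.mul_apply, Equiv.Perm.mul_apply]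
  have e1 : (SW (Om n))⁻¹ z0 = z0 := by
    rw [Equiv.Perm.inv_eq_iff_eq]
    funext k
    rw [SW_apply]
    exact (Om_zero n k).symm
  have e2 : ps 2 z0 0 = (1, 0) := by
    show (SW (sl 2)) z0 0 = _
    rw [SW_apply]
    show (gT 2).perm (0, 0) = (1, 0)
    rw [perm_apply (by decide)]
    rfl
  rw [e1, SW_apply, Psi_gl, e2]

theorem growth (K : ℕ) : ∃ n : ℕ, (K : ℝ) * 2 ^ (K * (16 * n + 2)) < 2 ^ ee n := by
  refine ⟨32 * K + 10, ?_⟩
  have h1 : K + K * (16 * (32 * K + 10) + 2) < ee (32 * K + 10) := by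
    have h2 := ee_eq (32 * K + 10)
    have h3 : 2 * (K + K * (16 * (32 * K + 10) + 2)) < (32 * K + 10) * (32 * K + 10 + 1) := by
      nlinarith
    omega
  have hK : (K : ℝ) ≤ 2 ^ K := by exact_mod_cast (Nat.lt_two_pow_self).le
  calc (K : ℝ) * 2 ^ (K * (16 * (32 * K + 10) + 2)) ≤ 2 ^ K * 2 ^ (K * (16 * (32 * K + 10) + 2)) := by
        gcongr
    _ = 2 ^ (K + K * (16 * (32 * K + 10) + 2)) := by rw [← pow_add]
    _ < 2 ^ ee (32 * K + 10) := pow_lt_pow_right₀ (by norm_num) h1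

theorem gr (h1 : StmF1b) (h2 : StmF2) : StmGr := by
  refine ⟨ff, 1, fun n hn x => ff_diff hn x, fun K => ?_⟩
  obtain ⟨n, hn⟩ := growth K
  refine ⟨(gF n).toWord, ?_, ?_⟩
  · rw [FreeGroup.mk_toWord]
    exact gG_mem h1 h2 n
  · rw [FreeGroup.mk_toWord]
    have hL : (gF n).toWord.length ≤ 16 * n + 1 := norm_gF n
    have hff : ff (pg relF (gF n))⁻¹ = (((Om n 0 (1, 0)).1 + (Om n 0 (1, 0)).2 : ℤ) : ℝ) := by
      unfold ff
      rw [if_pos (inv_mem (gG_mem h1 h2 n)), inv_inv, Psi_g]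
    obtain ⟨k1, k2, k3⟩ := Om_grow n (1, 0) (by norm_num) le_rfl
    have hbig : (2 : ℝ) ^ ee n ≤ (((Om n 0 (1, 0)).1 + (Om n 0 (1, 0)).2 : ℤ) : ℝ) := by
      have : (2 : ℤ) ^ ee n ≤ (Om n 0 (1, 0)).1 + (Om n 0 (1, 0)).2 := by
        simpa using k3
      exact_mod_cast this
    rw [hff, ff_one, zero_sub, abs_neg]
    refine lt_of_lt_of_le ?_ (le_abs_self _)
    refine lt_of_lt_of_le ?_ hbig
    refine lt_of_le_of_lt ?_ hn
    refine mul_le_mul_of_nonneg_left ?_ (by positivity)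
    refine pow_le_pow_right₀ (by norm_num) ?_
    exact Nat.mul_le_mul_left _ (by omega)

end Pool.Agent.W366.RA
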